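import Mathlib

namespace Pool.Agent.Results.MP_2a1499_al.CommutativeSquare

universe u

/-- A finite quiver: vertices, arrows, source and target. -/
structure FinQuiver where
  V : Type
  A : Type
  [finV : Fintype V]
  [finA : Fintype A]
  src : A → V
  tgt : A → V

attribute [instance] FinQuiver.finV FinQuiver.finA

/-- No oriented cycles. -/
def FinQuiver.Acyclic (Q : FinQuiver) : Prop :=
  ∀ v : Q.V, ¬ Relation.TransGen (fun x y => ∃ a : Q.A, Q.src a = x ∧ Q.tgt a = y) v v

/-- A finite-dimensional representation of `Q` over `k` in coordinates: `k ^ dim v` at the vertex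
`v` and a matrix for every arrow. (These are the finite-dimensional `kQ`-modules.) -/
structure Rep (k : Type u) [Field k] (Q : FinQuiver) where
  dim : Q.V → ℕ
  map : ∀ a : Q.A, Matrix (Fin (dim (Q.tgt a))) (Fin (dim (Q.src a))) k

variable {k : Type u} [Field k] {Q : FinQuiver}

/-- Families of linear maps, one for every vertex. -/
def Fam (M N : Rep k Q) : Type u :=
  ∀ v : Q.V, Matrix (Fin (N.dim v)) (Fin (M.dim v)) k

/-- Families of linear maps, one for every arrow. -/
def Coc (M N : Rep k Q) : Type u :=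
  ∀ a : Q.A, Matrix (Fin (N.dim (Q.tgt a))) (Fin (M.dim (Q.src a))) k

instance instFamGroup (M N : Rep k Q) : AddCommGroup (Fam M N) :=
  @Pi.addCommGroup _ _ (fun _ => Matrix.addCommGroup)

instance instFamModule (M N : Rep k Q) : Module k (Fam M N) :=
  @Pi.module _ _ _ _ _ (fun _ => Matrix.module)

instance instCocGroup (M N : Rep k Q) : AddCommGroup (Coc M N) :=
  @Pi.addCommGroup _ _ (fun _ => Matrix.addCommGroup)

instance instCocModule (M N : Rep k Q) : Module k (Coc M N) :=
  @Pi.module _ _ _ _ _ (fun _ => Matrix.module)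

/-- The differential on families. -/
def dfun (M N : Rep k Q) (F : Fam M N) : Coc M N :=
  fun a => F (Q.tgt a) * M.map a - N.map a * F (Q.src a)

theorem dfun_add (M N : Rep k Q) (F G : Fam M N) :
    dfun M N (F + G) = dfun M N F + dfun M N G := by
  funext a
  show (F (Q.tgt a) + G (Q.tgt a)) * M.map a - N.map a * (F (Q.src a) + G (Q.src a)) =
    (F (Q.tgt a) * M.map a - N.map a * F (Q.src a)) +
      (G (Q.tgt a) * M.map a - N.map a * G (Q.src a))
  rw [Matrix.add_mul, Matrix.mul_add]
  abel

theorem dfun_smul (M N : Rep k Q) (c : k) (F : Fam M N) :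
    dfun M N (c • F) = c • dfun M N F := by
  funext a
  show (c • F (Q.tgt a)) * M.map a - N.map a * (c • F (Q.src a)) =
    c • (F (Q.tgt a) * M.map a - N.map a * F (Q.src a))
  rw [Matrix.smul_mul, Matrix.mul_smul, smul_sub]

/-- The standard two-term complex computing `Hom` and `Ext¹` of representations. -/
def delta (M N : Rep k Q) : Fam M N →ₗ[k] Coc M N where
  toFun := dfun M N
  map_add' := dfun_add M N
  map_smul' := dfun_smul M N

/-- Morphisms of representations. -/
def Hom (M N : Rep k Q) : Type u := LinearMap.ker (delta M N)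

instance instHomGroup (M N : Rep k Q) : AddCommGroup (Hom M N) :=
  Submodule.addCommGroup (LinearMap.ker (delta M N))

instance instHomModule (M N : Rep k Q) : Module k (Hom M N) :=
  Submodule.module (LinearMap.ker (delta M N))

/-- The first extension group of representations. -/
def Ext (M N : Rep k Q) : Type u := Coc M N ⧸ LinearMap.range (delta M N)

instance instExtGroup (M N : Rep k Q) : AddCommGroup (Ext M N) :=
  Submodule.Quotient.addCommGroup (LinearMap.range (delta M N))

instance instExtModule (M N : Rep k Q) : Module k (Ext M N) :=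
  Submodule.Quotient.module (LinearMap.range (delta M N))

theorem comm {M N : Rep k Q} (F : Hom M N) (a : Q.A) :
    F.1 (Q.tgt a) * M.map a = N.map a * F.1 (Q.src a) := by
  have h := F.2
  rw [LinearMap.mem_ker] at h
  exact sub_eq_zero.mp (congrFun h a)

/-- The family of identities. -/
def idFam (M : Rep k Q) : Fam M M := fun _ => 1

theorem idm_mem (M : Rep k Q) : idFam M ∈ LinearMap.ker (delta M M) := by
  rw [LinearMap.mem_ker]
  funext a
  exact (sub_eq_zero (b := M.map a * 1)).mpr
    ((Matrix.one_mul (M.map a)).trans (Matrix.mul_one (M.map a)).symm)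

/-- The identity morphism. -/
def idm (M : Rep k Q) : Hom M M := ⟨idFam M, idm_mem M⟩

/-- Composition of families. -/
def compFam {M N P : Rep k Q} (F : Fam M N) (G : Fam N P) : Fam M P := fun v => G v * F v

theorem comp_mem {M N P : Rep k Q} (F : Hom M N) (G : Hom N P) :
    compFam F.1 G.1 ∈ LinearMap.ker (delta M P) := by
  rw [LinearMap.mem_ker]
  funext a
  show G.1 (Q.tgt a) * F.1 (Q.tgt a) * M.map a - P.map a * (G.1 (Q.src a) * F.1 (Q.src a)) = 0
  rw [Matrix.mul_assoc, comm F a, ← Matrix.mul_assoc, comm G a, Matrix.mul_assoc, sub_self]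

/-- Composition of morphisms, first `F`, then `G`. -/
def comp {M N P : Rep k Q} (F : Hom M N) (G : Hom N P) : Hom M P :=
  ⟨compFam F.1 G.1, comp_mem F G⟩

/-- Push-out on cocycles. -/
def pushFun {M N P : Rep k Q} (G : Fam N P) (e : Coc M N) : Coc M P :=
  fun a => G (Q.tgt a) * e a

/-- Pull-back on cocycles. -/
def pullFun {M N P : Rep k Q} (F : Fam M N) (e : Coc N P) : Coc M P :=
  fun a => e a * F (Q.src a)

theorem pushFun_add {M N P : Rep k Q} (G : Fam N P) (e f : Coc M N) :
    pushFun G (e + f) = pushFun G e + pushFun G f :=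
  funext fun a => Matrix.mul_add (G (Q.tgt a)) (e a) (f a)

theorem pushFun_smul {M N P : Rep k Q} (G : Fam N P) (c : k) (e : Coc M N) :
    pushFun G (c • e) = c • pushFun G e :=
  funext fun a => Matrix.mul_smul (G (Q.tgt a)) c (e a)

theorem pullFun_add {M N P : Rep k Q} (F : Fam M N) (e f : Coc N P) :
    pullFun F (e + f) = pullFun F e + pullFun F f :=
  funext fun a => Matrix.add_mul (e a) (f a) (F (Q.src a))

theorem pullFun_smul {M N P : Rep k Q} (F : Fam M N) (c : k) (e : Coc N P) :
    pullFun F (c • e) = c • pullFun F e :=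
  funext fun a => Matrix.smul_mul c (e a) (F (Q.src a))

/-- Push-out on cocycles as a linear map. -/
def pushC {M N P : Rep k Q} (G : Fam N P) : Coc M N →ₗ[k] Coc M P where
  toFun := pushFun G
  map_add' := pushFun_add G
  map_smul' := pushFun_smul G

/-- Pull-back on cocycles as a linear map. -/
def pullC {M N P : Rep k Q} (F : Fam M N) : Coc N P →ₗ[k] Coc M P where
  toFun := pullFun F
  map_add' := pullFun_add F
  map_smul' := pullFun_smul F

theorem pushC_le {M N P : Rep k Q} (G : Hom N P) :
    LinearMap.range (delta M N) ≤ (LinearMap.range (delta M P)).comap (pushC G.1) := by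
  rintro _ ⟨F, rfl⟩
  refine ⟨compFam F G.1, ?_⟩
  funext a
  show G.1 (Q.tgt a) * F (Q.tgt a) * M.map a - P.map a * (G.1 (Q.src a) * F (Q.src a)) =
    G.1 (Q.tgt a) * (F (Q.tgt a) * M.map a - N.map a * F (Q.src a))
  rw [Matrix.mul_sub, Matrix.mul_assoc, ← Matrix.mul_assoc (G.1 (Q.tgt a)) (N.map a), comm G a,
    Matrix.mul_assoc]

theorem pullC_le {M N P : Rep k Q} (F : Hom M N) :
    LinearMap.range (delta N P) ≤ (LinearMap.range (delta M P)).comap (pullC F.1) := by
  rintro _ ⟨G, rfl⟩
  refine ⟨compFam F.1 G, ?_⟩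
  funext a
  show G (Q.tgt a) * F.1 (Q.tgt a) * M.map a - P.map a * (G (Q.src a) * F.1 (Q.src a)) =
    (G (Q.tgt a) * N.map a - P.map a * G (Q.src a)) * F.1 (Q.src a)
  rw [Matrix.sub_mul, Matrix.mul_assoc, comm F a, ← Matrix.mul_assoc, Matrix.mul_assoc (P.map a)]

/-- Push-out of extensions along a morphism `G : N → P`. -/
def push {M N P : Rep k Q} (G : Hom N P) : Ext M N →ₗ[k] Ext M P :=
  Submodule.mapQ (LinearMap.range (delta M N)) (LinearMap.range (delta M P)) (pushC G.1)
    (pushC_le G)

/-- Pull-back of extensions along a morphism `F : M → N`. -/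
def pull {M N P : Rep k Q} (F : Hom M N) : Ext N P →ₗ[k] Ext M P :=
  Submodule.mapQ (LinearMap.range (delta N P)) (LinearMap.range (delta M P)) (pullC F.1)
    (pullC_le F)

/-- `F` is an isomorphism. -/
def IsIsoM {M N : Rep k Q} (F : Hom M N) : Prop :=
  ∃ G : Hom N M, comp F G = idm M ∧ comp G F = idm N

/-- A representation is indecomposable: nonzero, and its only idempotent endomorphisms are `0` and
the identity. -/
def Indecomposable (M : Rep k Q) : Prop :=
  idm M ≠ 0 ∧ ∀ F : Hom M M, comp F F = F → F = 0 ∨ F = idm M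

/-- Exceptional: indecomposable without self-extensions. -/
def Exceptional (M : Rep k Q) : Prop :=
  Indecomposable M ∧ ∀ e : Ext M M, e = 0

/-- An exceptional sequence of length `m`. -/
def ExceptionalSequence {m : ℕ} (X : Fin m → Rep k Q) : Prop :=
  (∀ i, Exceptional (X i)) ∧
    ∀ i j, j < i → (∀ F : Hom (X i) (X j), F = 0) ∧ ∀ e : Ext (X i) (X j), e = 0

/-- An exceptional collection: some ordering is an exceptional sequence. -/
def ExceptionalCollection {m : ℕ} (X : Fin m → Rep k Q) : Prop :=
  ∃ s : Equiv.Perm (Fin m), ExceptionalSequence fun i => X (s i)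

section HomExt

variable {m : ℕ} (X : Fin m → Rep k Q)

/-- Radical morphisms from `X i` to `X j`: the span of the non-isomorphisms. -/
def radHom (i j : Fin m) : Submodule k (Hom (X i) (X j)) :=
  Submodule.span k {F | ¬ IsIsoM F}

/-- Morphisms in the square of the radical: sums of products of two non-isomorphisms through
members of the collection. -/
def radHomSq (i j : Fin m) : Submodule k (Hom (X i) (X j)) :=
  Submodule.span k {H | ∃ (l : Fin m) (F : Hom (X i) (X l)) (G : Hom (X l) (X j)),
    ¬ IsIsoM F ∧ ¬ IsIsoM G ∧ H = comp F G}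

/-- Extensions in the square of the radical: sums of push-outs and pull-backs of extensions along
non-isomorphisms between members of the collection. -/
def radExtSq (i j : Fin m) : Submodule k (Ext (X i) (X j)) :=
  Submodule.span k
    ({e | ∃ (l : Fin m) (f : Ext (X i) (X l)) (G : Hom (X l) (X j)), ¬ IsIsoM G ∧ e = push G f} ∪
     {e | ∃ (l : Fin m) (F : Hom (X i) (X l)) (f : Ext (X l) (X j)), ¬ IsIsoM F ∧ e = pull F f})

/-- A choice of arrows of the Hom-Ext quiver `Q^χ`: arrows of the first kind are radical morphisms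
which form a basis modulo the square of the radical, arrows of the second kind are extensions which
form a basis modulo the square of the radical. -/
structure HomExtQuiver where
  /-- arrows that are morphisms -/
  H : Fin m → Fin m → Type u
  /-- arrows that are extensions -/
  E : Fin m → Fin m → Type u
  hval : ∀ {i j}, H i j → Hom (X i) (X j)
  eval : ∀ {i j}, E i j → Ext (X i) (X j)
  h_rad : ∀ {i j} (a : H i j), hval a ∈ radHom X i j
  h_indep : ∀ i j, LinearIndependent k fun a : H i j => (radHomSq X i j).mkQ (hval a)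
  h_span : ∀ i j, radHom X i j ≤ Submodule.span k (Set.range fun a : H i j => hval a) ⊔ radHomSq X i j
  e_indep : ∀ i j, LinearIndependent k fun a : E i j => (radExtSq X i j).mkQ (eval a)
  e_span : ∀ i j, ⊤ ≤ Submodule.span k (Set.range fun a : E i j => eval a) ⊔ radExtSq X i j

variable {X}

/-- Paths in the Hom-Ext quiver. -/
inductive Path (P : HomExtQuiver X) (i : Fin m) : Fin m → Type u
  | nil : Path P i i
  | hom {j l : Fin m} (p : Path P i j) (a : P.H j l) : Path P i l
  | ext {j l : Fin m} (p : Path P i j) (a : P.E j l) : Path P i l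

namespace Path

variable {P : HomExtQuiver X}

/-- Length of a path. -/
def length {i : Fin m} : ∀ {j : Fin m}, Path P i j → ℕ
  | _, nil => 0
  | _, hom p _ => p.length + 1
  | _, ext p _ => p.length + 1

/-- Concatenation of paths. -/
def append {i j : Fin m} (p : Path P i j) : ∀ {l : Fin m}, Path P j l → Path P i l
  | _, nil => p
  | _, hom q a => hom (append p q) a
  | _, ext q a => ext (append p q) a

/-- The value of a path in `Hom(X i, X j) ⊕ Ext¹(X i, X j)` (products of two extensions are `0`).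
The two components are the preimages of the path in `End(X ⊕ ΣX)`: as a map
`X i → X j` (and `ΣX i → ΣX j`), respectively `X i → ΣX j`. -/
def value {i : Fin m} : ∀ {j : Fin m}, Path P i j → Hom (X i) (X j) × Ext (X i) (X j)
  | _, nil => (idm (X i), 0)
  | _, hom p a => (comp p.value.1 (P.hval a), push (P.hval a) p.value.2)
  | _, ext p a => (0, pull p.value.1 (P.eval a))

end Path

/-- The part of the ideal `R` from `i` to `j`: linear combinations of paths with value `0`. -/
noncomputable def relations (P : HomExtQuiver X) (i j : Fin m) : Submodule k (Path P i j →₀ k) :=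
  LinearMap.ker (Finsupp.linearCombination k (fun p : Path P i j => p.value))

/-- The two-sided ideal of the path algebra generated by a set of paths, part from `i` to `j`. -/
noncomputable def monomialIdeal (P : HomExtQuiver X) (S : ∀ i j, Set (Path P i j)) (i j : Fin m) :
    Submodule k (Path P i j →₀ k) :=
  Submodule.span k {x | ∃ (s t : Fin m) (p : Path P i s) (r : Path P s t) (q : Path P t j),
    r ∈ S s t ∧ x = Finsupp.single (p.append (r.append q)) 1}

/-- `R` is generated by monomial relations, i.e. by paths of length at least two. -/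
def MonomiallyGenerated (P : HomExtQuiver X) : Prop :=
  ∃ S : ∀ i j, Set (Path P i j), (∀ i j, ∀ p ∈ S i j, 2 ≤ p.length) ∧
    ∀ i j, relations P i j = monomialIdeal P S i j

end HomExt


/-! ### The quiver `D₄` and four representations -/

/-- The quiver `D₄` with centre `0` and arrows `1 → 0`, `2 → 0`, `3 → 0`. -/
def D4 : FinQuiver where
  V := Fin 4
  A := Fin 3
  src := Fin.succ
  tgt := fun _ => 0

theorem D4_acyclic : D4.Acyclic := by
  intro v h
  have key : ∀ x y : Fin 4, Relation.TransGen
      (fun x y => ∃ a : Fin 3, Fin.succ a = x ∧ (0 : Fin 4) = y) x y → x ≠ 0 ∧ y = 0 := by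
    intro x y hxy
    induction hxy with
    | single h1 =>
      obtain ⟨a, ha, hb⟩ := h1
      exact ⟨by rw [← ha]; exact Fin.succ_ne_zero a, hb.symm⟩
    | tail _ h1 ih =>
      obtain ⟨a, ha, hb⟩ := h1
      exact ⟨ih.1, hb.symm⟩
  exact (key v v h).1 (key v v h).2

/-- Dimensions at the vertices `0, 1, 2, 3` of the four representations. -/
def dims : Fin 4 → Fin 4 → ℕ :=
  ![fun i => if i = 3 then 0 else 1, fun _ => 1, fun i => if i = 2 then 1 else 0,
    fun i => if i = 1 then 1 else 0]

/-- The four representations `(1;1,0,0)`, `(1;1,0,1)`, `(1;1,1,0)`, `(0;1,0,0)`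
(dimension at the centre first), all matrices have entries `1`. -/
def X (k : Type u) [Field k] (i : Fin 4) : Rep k D4 where
  dim := fun v => dims v i
  map := fun _ => Matrix.of fun _ _ => 1

theorem dims_le (v i : Fin 4) : dims v i ≤ 1 := by
  fin_cases v <;> fin_cases i <;> simp [dims]

theorem subs (v i : Fin 4) : Subsingleton (Fin (dims v i)) :=
  Fin.subsingleton_iff_le_one.mpr (dims_le v i)

theorem dims_pos : ∀ (a : Fin 3) (i j : Fin 4), a ≠ 0 →
    0 < dims a.succ j → 0 < dims a.succ i → 0 < dims 0 j := by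
  decide

/-- The coordinate of a morphism at the vertex `1`. -/
def lam {i j : Fin 4} (F : Hom (X k i) (X k j)) : k := F.1 (1 : Fin 4) (0 : Fin 1) (0 : Fin 1)

theorem arrow_eq {i j : Fin 4} (F : Hom (X k i) (X k j)) (a : Fin 3)
    (r : Fin (dims 0 j)) (s : Fin (dims a.succ i)) :
    ∑ t : Fin (dims 0 i), F.1 (0 : Fin 4) r t = ∑ t : Fin (dims a.succ j), F.1 a.succ t s := by
  have h := congrFun (congrFun (comm F a) r) s
  have h2 : ∑ t : Fin (dims 0 i), F.1 (0 : Fin 4) r t * (1 : k) =
      ∑ t : Fin (dims a.succ j), (1 : k) * F.1 a.succ t s := h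
  simpa using h2

theorem sum_zero_eq {i j : Fin 4} (F : Hom (X k i) (X k j)) (r : Fin (dims 0 j)) :
    ∑ t : Fin (dims 0 i), F.1 (0 : Fin 4) r t = lam F := by
  have h := arrow_eq F 0 r (0 : Fin 1)
  rw [h]
  exact Fin.sum_univ_one (fun t : Fin 1 => F.1 (1 : Fin 4) t (0 : Fin 1))

theorem entry_zero {i j : Fin 4} (F : Hom (X k i) (X k j))
    (r : Fin (dims 0 j)) (t : Fin (dims 0 i)) : F.1 (0 : Fin 4) r t = lam F := by
  rw [← sum_zero_eq F r]
  have : Subsingleton (Fin (dims 0 i)) := subs 0 i
  exact (Fintype.sum_subsingleton (fun t : Fin (dims 0 i) => F.1 (0 : Fin 4) r t) t).symm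

theorem entry_succ {i j : Fin 4} (F : Hom (X k i) (X k j)) (a : Fin 3)
    (r : Fin (dims a.succ j)) (t : Fin (dims a.succ i)) : F.1 a.succ r t = lam F := by
  by_cases ha : a = 0
  · subst ha
    have hr : r = (0 : Fin 1) := Subsingleton.elim (α := Fin 1) r 0
    have ht : t = (0 : Fin 1) := Subsingleton.elim (α := Fin 1) t 0
    rw [hr, ht]
    rfl
  have hj : 0 < dims 0 j := dims_pos a i j ha (Fin.pos r) (Fin.pos t)
  have h := arrow_eq F a ⟨0, hj⟩ t
  rw [sum_zero_eq F ⟨0, hj⟩] at h
  rw [h]
  have : Subsingleton (Fin (dims a.succ j)) := subs a.succ j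
  exact (Fintype.sum_subsingleton (fun r : Fin (dims a.succ j) => F.1 a.succ r t) r).symm

theorem entry_eq {i j : Fin 4} (F : Hom (X k i) (X k j)) (v : Fin 4)
    (r : Fin (dims v j)) (t : Fin (dims v i)) : F.1 v r t = lam F := by
  rcases Fin.eq_zero_or_eq_succ v with rfl | ⟨a, rfl⟩
  · exact entry_zero F r t
  · exact entry_succ F a r t

theorem ext_lam {i j : Fin 4} {F G : Hom (X k i) (X k j)} (h : lam F = lam G) : F = G := by
  apply Subtype.ext
  funext v
  ext r t
  rw [entry_eq F v r t, entry_eq G v r t, h]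

@[simp] theorem lam_zero {i j : Fin 4} : lam (0 : Hom (X k i) (X k j)) = 0 := rfl

@[simp] theorem lam_idm (i : Fin 4) : lam (idm (X k i)) = 1 := by
  show (1 : Matrix (Fin 1) (Fin 1) k) 0 0 = 1
  exact Matrix.one_apply_eq 0

theorem lam_smul {i j : Fin 4} (c : k) (F : Hom (X k i) (X k j)) : lam (c • F) = c * lam F := rfl

theorem lam_comp {i j l : Fin 4} (F : Hom (X k i) (X k j)) (G : Hom (X k j) (X k l)) :
    lam (comp F G) = lam G * lam F := by
  show ∑ t : Fin 1, G.1 (1 : Fin 4) (0 : Fin 1) t * F.1 (1 : Fin 4) t (0 : Fin 1) = _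
  rw [Fin.sum_univ_one]
  rfl

theorem eq_zero_of_lam {i j : Fin 4} {F : Hom (X k i) (X k j)} (h : lam F = 0) : F = 0 :=
  ext_lam (h.trans lam_zero.symm)

/-- A vertex at which `X i` lives, `X j` does not, while `X j` lives at the centre. -/
theorem lam_eq_zero_of_gap {i j : Fin 4} (F : Hom (X k i) (X k j)) (a : Fin 3)
    (h0 : 0 < dims 0 j) (h1 : 0 < dims a.succ i) (h2 : dims a.succ j = 0) : lam F = 0 := by
  have h := arrow_eq F a ⟨0, h0⟩ ⟨0, h1⟩
  rw [sum_zero_eq] at h
  rw [h]
  have : IsEmpty (Fin (dims a.succ j)) := by rw [h2]; exact Fin.isEmpty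
  exact Fintype.sum_empty _

theorem lam_eq_zero_of_centre {i j : Fin 4} (F : Hom (X k i) (X k j))
    (h0 : 0 < dims 0 j) (h1 : dims 0 i = 0) : lam F = 0 := by
  rw [← sum_zero_eq F ⟨0, h0⟩]
  have : IsEmpty (Fin (dims 0 i)) := by rw [h1]; exact Fin.isEmpty
  exact Fintype.sum_empty _

/-- The pairs with a nonzero morphism. -/
def Leq (i j : Fin 4) : Prop := i = j ∨ i = 0 ∨ j = 3

instance : DecidableRel Leq := fun i j => by unfold Leq; infer_instance

theorem lam_eq_zero {i j : Fin 4} (h : ¬ Leq i j) (F : Hom (X k i) (X k j)) : lam F = 0 := by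
  have key : ∀ i j : Fin 4, ¬ Leq i j → (0 < dims 0 j ∧ dims 0 i = 0) ∨
      ∃ a : Fin 3, 0 < dims 0 j ∧ 0 < dims a.succ i ∧ dims a.succ j = 0 := by decide
  rcases key i j h with ⟨h0, h1⟩ | ⟨a, h0, h1, h2⟩
  · exact lam_eq_zero_of_centre F h0 h1
  · exact lam_eq_zero_of_gap F a h0 h1 h2

/-- The family with all entries `1`. -/
def ones (k : Type u) [Field k] (i j : Fin 4) : Fam (X k i) (X k j) :=
  fun _ => Matrix.of fun _ _ => 1

/-- The canonical morphism. -/
def std (k : Type u) [Field k] (i j : Fin 4) (h : Leq i j) : Hom (X k i) (X k j) :=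
  ⟨ones k i j, by
    rw [LinearMap.mem_ker]
    funext a
    have key : ∀ i j : Fin 4, Leq i j → ∀ a : Fin 3, 0 < dims 0 j → 0 < dims a.succ i →
        dims 0 i = dims a.succ j := by decide
    ext r s
    have e := key i j h a (Fin.pos r) (Fin.pos s)
    show ∑ t : Fin (dims 0 i), (1 : k) * 1 - ∑ t : Fin (dims a.succ j), (1 : k) * 1 = 0
    simp [e]⟩

theorem lam_std (i j : Fin 4) (h : Leq i j) : lam (std k i j h) = 1 := rfl

theorem isIso_of_lam {i : Fin 4} {F : Hom (X k i) (X k i)} (h : lam F ≠ 0) : IsIsoM F := by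
  refine ⟨(lam F)⁻¹ • idm (X k i), ext_lam ?_, ext_lam ?_⟩
  · rw [lam_comp, lam_smul, lam_idm, mul_one, inv_mul_cancel₀ h]
  · rw [lam_comp, lam_smul, lam_idm, mul_one, mul_inv_cancel₀ h]

theorem not_isIso_std {i j : Fin 4} (h : Leq i j) (hji : ¬ Leq j i) : ¬ IsIsoM (std k i j h) := by
  rintro ⟨G, h1, _⟩
  have h2 := congrArg lam h1
  rw [lam_comp, lam_idm, lam_eq_zero hji G, zero_mul] at h2
  exact zero_ne_one h2

/-! ### Extensions -/

/-- Total sum of a cocycle at an arrow. -/
def tot {i j : Fin 4} (e : Coc (X k i) (X k j)) (a : Fin 3) : k :=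
  ∑ r : Fin (dims 0 j), ∑ s : Fin (dims a.succ i), e a r s

theorem tot_eq {i j : Fin 4} (e : Coc (X k i) (X k j)) (a : Fin 3)
    (r : Fin (dims 0 j)) (s : Fin (dims a.succ i)) : e a r s = tot e a := by
  have h1 : Subsingleton (Fin (dims 0 j)) := subs 0 j
  have h2 : Subsingleton (Fin (dims a.succ i)) := subs a.succ i
  have h3 := Fintype.sum_subsingleton
    (fun r : Fin (dims 0 j) => ∑ s : Fin (dims a.succ i), e a r s) r
  have h4 := Fintype.sum_subsingleton (fun s : Fin (dims a.succ i) => e a r s) s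
  unfold tot
  rw [h3, h4]

/-- The value at the centre used to split a cocycle. -/
def mid (i j : Fin 4) (ε : Fin 3 → k) : k :=
  if i = 1 ∧ j = 0 then ε 2 else if i = 2 then (if j = 2 then 0 else ε 1) else 0

theorem ext_eq_zero {i j : Fin 4} (h : j ≤ i) (e : Ext (X k i) (X k j)) : e = 0 := by
  induction e using Submodule.Quotient.induction_on with
  | H e =>
    refine (Submodule.Quotient.mk_eq_zero (LinearMap.range (delta (X k i) (X k j)))).mpr ?_
    refine ⟨fun v => Fin.cases (motive := fun v : Fin 4 =>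
        Matrix (Fin (dims v j)) (Fin (dims v i)) k)
      (Matrix.of fun _ _ => mid i j (tot e))
      (fun a => Matrix.of fun _ _ => (dims 0 i : k) * mid i j (tot e) - tot e a) v, ?_⟩
    funext a
    ext r s
    rw [tot_eq e a r s]
    show ∑ t : Fin (dims 0 i), mid i j (tot e) * 1 -
      ∑ t : Fin (dims a.succ j), 1 * ((dims 0 i : k) * mid i j (tot e) - tot e a) = tot e a
    have key : ∀ i j : Fin 4, j ≤ i → ∀ a : Fin 3, 0 < dims 0 j → 0 < dims a.succ i →
        dims a.succ j = 1 ∨ (dims a.succ j = 0 ∧ dims 0 i = 1 ∧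
          ((i = 1 ∧ j = 0 ∧ a = 2) ∨ (i = 2 ∧ j ≠ 2 ∧ a = 1))) := by decide
    rcases key i j h a (Fin.pos r) (Fin.pos s) with h1 | ⟨h1, h2, h3⟩
    · simp [h1]
    · rcases h3 with ⟨rfl, rfl, rfl⟩ | ⟨rfl, h4, rfl⟩
      · simp [h2, mid]
      · simp [h2, mid, h4]

theorem exceptional (i : Fin 4) : Exceptional (X k i) := by
  refine ⟨⟨?_, ?_⟩, fun e => ext_eq_zero le_rfl e⟩
  · intro h
    have h2 := congrArg lam h
    rw [lam_idm, lam_zero] at h2
    exact one_ne_zero h2
  · intro F hF
    have h := congrArg lam hF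
    rw [lam_comp] at h
    have h2 : lam F * (lam F - 1) = 0 := by linear_combination h
    rcases mul_eq_zero.mp h2 with h3 | h3
    · exact Or.inl (eq_zero_of_lam h3)
    · exact Or.inr (ext_lam (by rw [lam_idm]; exact sub_eq_zero.mp h3))

theorem exceptionalCollection (k : Type u) [Field k] : ExceptionalCollection (X k) := by
  refine ⟨Equiv.refl _, fun i => exceptional i, fun i j hij => ⟨fun F => ?_, fun e => ?_⟩⟩
  · have key : ∀ i j : Fin 4, j < i → ¬ Leq i j := by decide
    exact eq_zero_of_lam (lam_eq_zero (key i j hij) F)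
  · exact ext_eq_zero hij.le e

/-! ### Arrows of the Hom-Ext quiver -/

theorem radHomSq_eq_bot {i j : Fin 4} (h : (i = 0 ∧ j = 1) ∨ (i = 0 ∧ j = 2) ∨ (i = 1 ∧ j = 3) ∨
    (i = 2 ∧ j = 3)) : radHomSq (X k) i j = ⊥ := by
  unfold radHomSq
  rw [Submodule.span_eq_bot]
  rintro H ⟨l, F, G, hF, hG, rfl⟩
  have key : ∀ i j : Fin 4, ((i = 0 ∧ j = 1) ∨ (i = 0 ∧ j = 2) ∨ (i = 1 ∧ j = 3) ∨
    (i = 2 ∧ j = 3)) → ∀ l : Fin 4, l = i ∨ l = j ∨ ¬ Leq i l ∨ ¬ Leq l j := by decide
  apply eq_zero_of_lam
  rw [lam_comp]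
  rcases key i j h l with rfl | rfl | h1 | h1
  · have : lam F = 0 := by
      by_contra h2
      exact hF (isIso_of_lam h2)
    rw [this, mul_zero]
  · have : lam G = 0 := by
      by_contra h2
      exact hG (isIso_of_lam h2)
    rw [this, zero_mul]
  · rw [lam_eq_zero h1 F, mul_zero]
  · rw [lam_eq_zero h1 G, zero_mul]

theorem exists_arrow (P : HomExtQuiver (X k)) {i j : Fin 4} (h : (i = 0 ∧ j = 1) ∨
    (i = 0 ∧ j = 2) ∨ (i = 1 ∧ j = 3) ∨ (i = 2 ∧ j = 3)) : ∃ a : P.H i j, lam (P.hval a) ≠ 0 := by
  by_contra hno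
  push Not at hno
  have key : ∀ i j : Fin 4, ((i = 0 ∧ j = 1) ∨ (i = 0 ∧ j = 2) ∨ (i = 1 ∧ j = 3) ∨
    (i = 2 ∧ j = 3)) → Leq i j ∧ ¬ Leq j i := by decide
  obtain ⟨h1, h2⟩ := key i j h
  have h3 : std k i j h1 ∈ radHom (X k) i j := Submodule.subset_span (not_isIso_std h1 h2)
  have h4 := P.h_span i j h3
  rw [radHomSq_eq_bot h, sup_bot_eq] at h4
  have h5 : Submodule.span k (Set.range fun a : P.H i j => P.hval a) = ⊥ := by
    rw [Submodule.span_eq_bot]
    rintro _ ⟨a, rfl⟩
    exact eq_zero_of_lam (hno a)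
  rw [h5, Submodule.mem_bot] at h4
  have h6 := congrArg lam h4
  rw [lam_std, lam_zero] at h6
  exact one_ne_zero h6

/-- Lifting a basis modulo a subspace. -/
theorem exists_lift {V : Type u} [AddCommGroup V] [Module k V] (W R : Submodule k V) :
    ∃ (ι : Type u) (w : ι → V), (∀ a, w a ∈ W) ∧
      LinearIndependent k (fun a => R.mkQ (w a)) ∧
      W ≤ Submodule.span k (Set.range w) ⊔ R := by
  classical
  let N := W.map R.mkQ
  let b := Module.Basis.ofVectorSpace k N
  have hb : ∀ a, ∃ w ∈ W, R.mkQ w = (b a : V ⧸ R) := fun a => by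
    obtain ⟨w, hw, e⟩ := Submodule.mem_map.mp (b a).2
    exact ⟨w, hw, e⟩
  choose w hw e using hb
  refine ⟨_, w, hw, ?_, ?_⟩
  · have h1 := b.linearIndependent.map' N.subtype (Submodule.ker_subtype N)
    have h2 : (fun a => R.mkQ (w a)) = N.subtype ∘ b := by
      funext a
      exact e a
    rw [h2]
    exact h1
  · intro x hx
    have h3 : R.mkQ x ∈ (Submodule.span k (Set.range w)).map R.mkQ := by
      have h4 : (⟨R.mkQ x, Submodule.mem_map_of_mem hx⟩ : N) ∈
          Submodule.span k (Set.range b) := by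
        rw [b.span_eq]
        exact Submodule.mem_top
      have h5 := Submodule.mem_map_of_mem (f := N.subtype) h4
      rw [Submodule.map_span, ← Set.range_comp] at h5
      have h2 : (fun a => R.mkQ (w a)) = N.subtype ∘ b := by
        funext a
        exact e a
      rw [Submodule.map_span, ← Set.range_comp]
      change R.mkQ x ∈ Submodule.span k (Set.range (fun a => R.mkQ (w a)))
      rw [h2]
      exact h5
    have h6 : x ∈ ((Submodule.span k (Set.range w)).map R.mkQ).comap R.mkQ := h3
    rwa [Submodule.comap_map_eq, Submodule.ker_mkQ] at h6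

/-- Every finite family of representations has a Hom-Ext quiver. -/
theorem nonempty_quiver {m : ℕ} (X : Fin m → Rep k Q) : Nonempty (HomExtQuiver X) := by
  have h1 := fun i j => exists_lift (radHom X i j) (radHomSq X i j)
  have h2 := fun i j => exists_lift (⊤ : Submodule k (Ext (X i) (X j))) (radExtSq X i j)
  choose H hv hr hi hs using h1
  choose E ev er ei es using h2
  exact ⟨⟨H, E, fun {i j} => hv i j, fun {i j} => ev i j, fun {i j} => hr i j, hi, hs, ei, es⟩⟩

/-! ### The relation ideal is not monomial -/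

theorem not_monomial (P : HomExtQuiver (X k)) : ¬ MonomiallyGenerated P := by
  classical
  rintro ⟨S, _, hR⟩
  obtain ⟨a, ha⟩ := exists_arrow P (i := 0) (j := 1) (by decide)
  obtain ⟨b, hb⟩ := exists_arrow P (i := 1) (j := 3) (by decide)
  obtain ⟨c, hc⟩ := exists_arrow P (i := 0) (j := 2) (by decide)
  obtain ⟨d, hd⟩ := exists_arrow P (i := 2) (j := 3) (by decide)
  let p1 : Path P 0 3 := (Path.nil.hom a).hom b
  let p2 : Path P 0 3 := (Path.nil.hom c).hom d
  have hne : p2 ≠ p1 := by
    intro h
    injection h with h1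
    exact absurd h1 (by decide)
  have v1 : lam p1.value.1 ≠ 0 := by
    simp only [p1, Path.value]
    rw [lam_comp, lam_comp, lam_idm, mul_one]
    exact mul_ne_zero hb ha
  have v2 : lam p2.value.1 ≠ 0 := by
    simp only [p2, Path.value]
    rw [lam_comp, lam_comp, lam_idm, mul_one]
    exact mul_ne_zero hd hc
  have w1 : p1.value.2 = 0 := by
    simp only [p1, Path.value, map_zero]
  have w2 : p2.value.2 = 0 := by
    simp only [p2, Path.value, map_zero]
  let x : Path P 0 3 →₀ k :=
    Finsupp.single p1 (lam p2.value.1) - Finsupp.single p2 (lam p1.value.1)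
  have hx : x ∈ relations P 0 3 := by
    unfold relations
    rw [LinearMap.mem_ker, map_sub, Finsupp.linearCombination_single,
      Finsupp.linearCombination_single]
    apply Prod.ext
    · rw [Prod.fst_sub, Prod.smul_fst, Prod.smul_fst, Prod.fst_zero, sub_eq_zero]
      apply ext_lam
      rw [lam_smul, lam_smul, mul_comm]
    · rw [Prod.snd_sub, Prod.smul_snd, Prod.smul_snd, w1, w2, smul_zero, smul_zero, sub_zero]
      rfl
  have hx1 : x p1 ≠ 0 := by
    show (Finsupp.single p1 (lam p2.value.1) - Finsupp.single p2 (lam p1.value.1)) p1 ≠ 0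
    rw [Finsupp.sub_apply, Finsupp.single_eq_same, Finsupp.single_eq_of_ne hne.symm, sub_zero]
    exact v2
  have hle : monomialIdeal P S 0 3 ≤ Finsupp.supported k k
      {y | ∃ (s t : Fin 4) (p : Path P 0 s) (r : Path P s t) (q : Path P t 3),
        r ∈ S s t ∧ y = p.append (r.append q)} := by
    unfold monomialIdeal
    rw [Submodule.span_le]
    rintro _ ⟨s, t, p, r, q, hr, rfl⟩
    exact Finsupp.single_mem_supported k 1 ⟨s, t, p, r, q, hr, rfl⟩
  have hx2 : x ∈ monomialIdeal P S 0 3 := by
    rw [← hR]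
    exact hx
  have hx3 := (Finsupp.mem_supported k x).mp (hle hx2)
  obtain ⟨s, t, p, r, q, hr, e⟩ := hx3 (Finsupp.mem_support_iff.mpr hx1)
  have hx4 : Finsupp.single p1 (1 : k) ∈ relations P 0 3 := by
    rw [hR]
    exact Submodule.subset_span ⟨s, t, p, r, q, hr, by rw [e]⟩
  unfold relations at hx4
  rw [LinearMap.mem_ker, Finsupp.linearCombination_single, one_smul] at hx4
  apply v1
  rw [hx4]
  rfl

/-- **Disproof.** Over every field `k` there are a finite acyclic quiver `Q` and an exceptional
collection `X` of `kQ`-modules such that, for every choice of the arrows of the Hom-Ext quiver of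
`X` (and such a choice exists), the ideal of relations is not generated by monomial relations. -/
theorem result (k : Type u) [Field k] :
    ∃ (Q : FinQuiver) (m : ℕ) (X : Fin m → Rep k Q),
      Q.Acyclic ∧ ExceptionalCollection X ∧ Nonempty (HomExtQuiver X) ∧
        ∀ P : HomExtQuiver X, ¬ MonomiallyGenerated P :=
  ⟨D4, 4, X k, D4_acyclic, exceptionalCollection k, nonempty_quiver _, not_monomial⟩

end Pool.Agent.Results.MP_2a1499_al.CommutativeSquare
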